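import Pool.Agent.Helper51.CX.St

/-!
Project CX (MP_a41ee4_co), module C2M: in the third step no further member vanishes.
-/

set_option autoImplicit false

namespace Pool.Agent.Helper43.CX

open Pool.Agent.Helper51.CX

theorem hC2M : StTRA → StBDP → StBDD → StC2M := by
  intro hTRA hBDP hBDD K _ _ _ j h z d hS hF hj hh hp l hl hlj hlh hM
  obtain ⟨lo, hi, hhh, fe, tj, th, far, -, -, -⟩ := hS
  have tj' : L j (z + d) = 10 ^ 60 := by rw [L_add, tj, hj, add_zero]
  obtain ⟨a1, a2, a3, -, -, -, a7, -, -, -, -⟩ := hBDP K j lo hi z fe tj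
  obtain ⟨b1, b2, b3, -, -, -, -, -, -, -, -⟩ := hBDP K j lo hi (z + d) hF tj'
  obtain ⟨-, c2, c3, c4, -, -, c7, -, -⟩ := hBDD K j lo hi d
  have a1' : z 5 ≤ 1 + 1 / 10 ^ 14 := by
    have := le_abs_self (z 5 - 1)
    rw [← sub_le_iff_le_add', le_div_iff₀ (by positivity)]
    linarith
  have b1' : (z + d) 5 ≤ 1 + 1 / 10 ^ 14 := by
    have := le_abs_self ((z + d) 5 - 1)
    rw [← sub_le_iff_le_add', le_div_iff₀ (by positivity)]
    linarith
  have hmm : mm d ≤ 7 := by
    have h1 := mm_le z d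
    have h2 : (1 : K) / 10 ^ 14 ≤ 1 / 100 := by norm_num
    linarith
  have hmm0 := mm_nonneg d
  have hpd : pp j (z + d) = pp j z + pp j d := pp_add j z d
  have hpd1 : 1800 ≤ |pp j d| := by
    have h1 := le_abs_self (pp j (z + d))
    have h2 : |pp j (z + d)| ≤ 1 := by
      have h3 := abs_nonneg (pp j (z + d))
      norm_num at hp
      linarith
    have h4 := neg_abs_le (pp j d)
    linarith
  have hw : 10 ^ 40 * |ww j d| = |10 ^ 20 * pp j d - el j d| := by
    rcases hhh with e | e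
    · exact c2 hj (by rw [← e]; exact hh)
    · exact c3 hj (by rw [← e]; exact hh)
  have hw1 : 10 ^ 40 * |ww j d| ≤ 10 ^ 20 * |pp j d| + 7 := by
    rw [hw]
    have h1 := abs_sub (10 ^ 20 * pp j d) (el j d)
    rw [abs_mul, abs_of_nonneg (by positivity : (0 : K) ≤ 10 ^ 20)] at h1
    linarith
  by_cases hg : l = ga j ∨ l = gb j
  · -- the other gap row
    have hT := hT1 j hi lo
    have hl64 : l < 64 := by
      obtain ⟨-, -, -, -, -, -, g1, g2, -⟩ := hT
      rcases hg with e | e <;> omega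
    have hLl : L l d = 0 := (Mem_lt hl64 d).1 hM
    have hab : L (ga j) d = 0 ∧ L (gb j) d = 0 := by
      rcases hhh with e | e <;> rcases hg with e' | e'
      · exact absurd (e'.trans e.symm) hlh
      · exact ⟨by rw [← e]; exact hh, by rw [← e']; exact hLl⟩
      · exact ⟨by rw [← e']; exact hLl, by rw [← e]; exact hh⟩
      · exact absurd (e'.trans e.symm) hlh
    obtain ⟨-, h2⟩ := c4 hj hab.1 hab.2
    have h3 : 10 ^ 20 * |pp j d| ≤ 7 := by
      have h4 : |10 ^ 20 * pp j d| = 10 ^ 20 * |pp j d| := by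
        rw [abs_mul, abs_of_nonneg (by positivity : (0 : K) ≤ 10 ^ 20)]
      rw [← h4, h2]
      linarith
    norm_num at h3
    linarith
  · push Not at hg
    have h1 := hTRA K j lo hi l hl hlj hg.1 hg.2 d (Or.inr ⟨hj, hM⟩)
    norm_num at h1 hw1
    linarith

end Pool.Agent.Helper43.CX
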